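import Pool.Agent.helper62.EN.SpecP

namespace Pool.Agent.EN

theorem NUB_proof : NUB_stmt := by
  intro δ L J B hδ hδ' hL hJ h
  by_contra hcon
  push Not at hcon
  have hL0 : 0 < L := by linarith
  set x : ℝ := δ / L with hx
  have hx0 : 0 < x := div_pos hδ hL0
  have hxL : x * L = δ := by rw [hx]; field_simp
  have hxδ : x ≤ δ := by rw [hx]; exact div_le_self hδ.le hL
  have h1 := h x hx0.le (by linarith)
  have h2 : 2 * x * L = 2 * δ := by linarith [hxL]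
  have h3 : 2 * L ^ 2 * Real.exp (2 * x * L) * x ^ 2 = 2 * δ ^ 2 * Real.exp (2 * δ) := by
    rw [h2]
    have : L ^ 2 * x ^ 2 = δ ^ 2 := by rw [← mul_pow, mul_comm L x, hxL]
    calc 2 * L ^ 2 * Real.exp (2 * δ) * x ^ 2 = 2 * (L ^ 2 * x ^ 2) * Real.exp (2 * δ) := by ring
      _ = _ := by rw [this]
  rw [h3] at h1
  have hu : |2 * x * J| ≤ 2 * δ := by
    rw [abs_mul, abs_of_pos (by positivity : (0:ℝ) < 2 * x)]
    calc 2 * x * |J| ≤ 2 * x * L := by gcongr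
      _ = 2 * δ := h2
  have hxB : x * B < 2 * x * J - 14 * δ ^ 2 := by
    have : x * B < x * (2 * J - 14 * δ * L) := by
      apply mul_lt_mul_of_pos_left _ hx0
      linarith
    have e : x * (2 * J - 14 * δ * L) = 2 * x * J - 14 * δ * (x * L) := by ring
    rw [e, hxL] at this
    nlinarith [this]
  set u : ℝ := 2 * x * J with hu'
  have hu1 := (abs_le.1 hu).1
  have hu2 := (abs_le.1 hu).2
  have hd2 : δ ^ 2 ≤ δ / 24 := by nlinarith
  have hv : |u - 14 * δ ^ 2| ≤ (31 / 12) * δ := by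
    rw [abs_le]; constructor <;> nlinarith [sq_nonneg δ]
  have hv1 : |u - 14 * δ ^ 2| ≤ 1 := by linarith
  have hexp := Real.abs_exp_sub_one_sub_id_le hv1
  have hexp' := (abs_le.1 hexp).2
  have hsq : (u - 14 * δ ^ 2) ^ 2 ≤ ((31 / 12) * δ) ^ 2 := by
    rw [← sq_abs]
    exact pow_le_pow_left₀ (abs_nonneg _) hv 2
  have hlt : Real.exp (x * B) < Real.exp (u - 14 * δ ^ 2) := Real.exp_lt_exp.2 hxB
  have he : Real.exp (2 * δ) ≤ 1.1 := by
    have h4 : |2 * δ| ≤ 1 := by rw [abs_le]; constructor <;> linarith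
    have h5 := (abs_le.1 (Real.abs_exp_sub_one_sub_id_le h4)).2
    nlinarith
  have he2 : 2 * δ ^ 2 * Real.exp (2 * δ) ≤ 2 * δ ^ 2 * 1.1 := by gcongr
  have hd4 : 0 ≤ δ ^ 4 := by positivity
  nlinarith [sq_nonneg δ, sq_nonneg (δ ^ 2), mul_pos hδ hδ]

end Pool.Agent.EN
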