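import Pool.Agent.helper62.EN.SpecX
import Pool.Agent.helper62.RS.GLC

open scoped MatrixGroups ContDiff Topology UpperHalfPlane ComplexConjugate
open UpperHalfPlane MeasureTheory Filter Set

namespace Pool.Agent.EN

lemma XDS_compH : IsCompact {h : SL(2, ℝ) | ∀ i j : Fin 2, |h.1 i j - (1 : Matrix (Fin 2) (Fin 2) ℝ) i j| ≤ 1 / 2} := by
  have h1 : IsCompact {M : Matrix (Fin 2) (Fin 2) ℝ | ∀ i j : Fin 2, |M i j - (1 : Matrix (Fin 2) (Fin 2) ℝ) i j| ≤ 1 / 2} := by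
    have : {M : Matrix (Fin 2) (Fin 2) ℝ | ∀ i j : Fin 2, |M i j - (1 : Matrix (Fin 2) (Fin 2) ℝ) i j| ≤ 1 / 2} =
        Set.pi Set.univ (fun i : Fin 2 => Set.pi Set.univ (fun j : Fin 2 =>
          Set.Icc ((1 : Matrix (Fin 2) (Fin 2) ℝ) i j - 1 / 2) ((1 : Matrix (Fin 2) (Fin 2) ℝ) i j + 1 / 2))) := by
      ext M
      constructor
      · intro h i _ j _
        have h1 := abs_le.1 (h i j)
        exact ⟨by linarith [h1.1], by linarith [h1.2]⟩
      · intro h i j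
        have h1 := h i (Set.mem_univ _) j (Set.mem_univ _)
        exact abs_le.2 ⟨by linarith [h1.1], by linarith [h1.2]⟩
    rw [this]
    exact isCompact_univ_pi fun i => isCompact_univ_pi fun j => isCompact_Icc
  exact Matrix.SpecialLinearGroup.isClosedEmbedding_val.isCompact_preimage h1

theorem XDS_proof : XDS_stmt := by
  intro Γ hΓ
  obtain ⟨K, hK, hcov⟩ := hΓ.cocompact
  have hC : IsCompact {g : SL(2, ℝ) | g • I ∈ K} := RS.GLC.2.2.1 K hK
  set C : Set SL(2, ℝ) := {g : SL(2, ℝ) | g • I ∈ K} with hCdef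
  have hH := XDS_compH
  set H : Set SL(2, ℝ) := {h : SL(2, ℝ) | ∀ i j : Fin 2, |h.1 i j - (1 : Matrix (Fin 2) (Fin 2) ℝ) i j| ≤ 1 / 2} with hHdef
  have hcont : Continuous (fun p : SL(2, ℝ) × SL(2, ℝ) => (p.1 * p.2) • I) :=
    UpperHalfPlane.isProperMap_smul_I.continuous.comp continuous_mul
  have hK2 : IsCompact ((fun p : SL(2, ℝ) × SL(2, ℝ) => (p.1 * p.2) • I) '' (C ×ˢ H)) :=
    (hC.prod hH).image hcont
  set K1 : Set ℍ := K ∪ (fun p : SL(2, ℝ) × SL(2, ℝ) => (p.1 * p.2) • I) '' (C ×ˢ H) with hK1def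
  have hK1 : IsCompact K1 := hK.union hK2
  have hfin := hΓ.discrete K1 hK1
  -- for every element `γ ≠ 1` a lower bound
  have hlow : ∀ γ : Γ, γ ≠ 1 → ∃ ε : ℝ, 0 < ε ∧ ∀ g ∈ C, ¬ nr ε (g⁻¹ * (γ : SL(2, ℝ)) * g) := by
    intro γ hγ
    by_cases hne : C.Nonempty
    · have hf : Continuous (fun g : SL(2, ℝ) => ∑ i : Fin 2, ∑ j : Fin 2,
          |(g⁻¹ * (γ : SL(2, ℝ)) * g).1 i j - (1 : Matrix (Fin 2) (Fin 2) ℝ) i j|) := by
        have hg : Continuous (fun g : SL(2, ℝ) => (g⁻¹ * (γ : SL(2, ℝ)) * g).1) :=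
          continuous_subtype_val.comp ((continuous_inv.mul continuous_const).mul continuous_id)
        refine continuous_finsetSum _ fun i _ => continuous_finsetSum _ fun j _ => ?_
        exact ((hg.matrix_elem i j).sub continuous_const).abs
      obtain ⟨g0, hg0, hmin⟩ := hC.exists_isMinOn hne hf.continuousOn
      set m : ℝ := ∑ i : Fin 2, ∑ j : Fin 2,
          |(g0⁻¹ * (γ : SL(2, ℝ)) * g0).1 i j - (1 : Matrix (Fin 2) (Fin 2) ℝ) i j| with hm
      have hmpos : 0 < m := by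
        rcases (Finset.sum_nonneg (fun i _ => Finset.sum_nonneg (fun j _ => abs_nonneg _)) : 0 ≤ m).lt_or_eq with h | h
        · exact h
        · exfalso
          apply hγ
          have hz : ∀ i j : Fin 2, (g0⁻¹ * (γ : SL(2, ℝ)) * g0).1 i j = (1 : Matrix (Fin 2) (Fin 2) ℝ) i j := by
            intro i j
            have h1 := (Finset.sum_eq_zero_iff_of_nonneg
              (fun i _ => Finset.sum_nonneg (fun j _ => abs_nonneg _))).1 h.symm i (Finset.mem_univ _)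
            have h2 := (Finset.sum_eq_zero_iff_of_nonneg (fun j _ => abs_nonneg _)).1 h1 j (Finset.mem_univ _)
            exact sub_eq_zero.1 (abs_eq_zero.1 h2)
          have h3 : g0⁻¹ * (γ : SL(2, ℝ)) * g0 = 1 := by
            ext i j
            rw [hz i j]; rfl
          have h4 : (γ : SL(2, ℝ)) = 1 := by
            have : (γ : SL(2, ℝ)) = g0 * (g0⁻¹ * (γ : SL(2, ℝ)) * g0) * g0⁻¹ := by group
            rw [this, h3]; group
          exact Subtype.ext h4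
      refine ⟨m / 4, by positivity, fun g hg hn => ?_⟩
      have h5 : m ≤ ∑ i : Fin 2, ∑ j : Fin 2,
          |(g⁻¹ * (γ : SL(2, ℝ)) * g).1 i j - (1 : Matrix (Fin 2) (Fin 2) ℝ) i j| := hmin hg
      have h6 : ∑ i : Fin 2, ∑ j : Fin 2,
          |(g⁻¹ * (γ : SL(2, ℝ)) * g).1 i j - (1 : Matrix (Fin 2) (Fin 2) ℝ) i j| < m := by
        simp only [Fin.sum_univ_two]
        have a := hn 0 0
        have b := hn 0 1
        have c := hn 1 0
        have d := hn 1 1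
        linarith
      linarith
    · exact ⟨1, one_pos, fun g hg => absurd ⟨g, hg⟩ hne⟩
  -- a uniform bound over the finite set
  have huni : ∃ ε : ℝ, 0 < ε ∧ ε ≤ 1 / 2 ∧ ∀ γ ∈ {γ : Γ | ∃ z ∈ K1, γ • z ∈ K1}, γ ≠ 1 →
      ∀ g ∈ C, ¬ nr ε (g⁻¹ * (γ : SL(2, ℝ)) * g) := by
    choose! e he1 he2 using hlow
    have : ∀ s : Finset Γ, ∃ ε : ℝ, 0 < ε ∧ ε ≤ 1 / 2 ∧ ∀ γ ∈ s, γ ≠ 1 →
      ∀ g ∈ C, ¬ nr ε (g⁻¹ * (γ : SL(2, ℝ)) * g) := by
      classical
      intro s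
      induction s using Finset.induction_on with
      | empty => exact ⟨1 / 2, by norm_num, le_rfl, by simp⟩
      | insert a s ha ih =>
        obtain ⟨ε, h1, h2, h3⟩ := ih
        by_cases ha1 : a = 1
        · refine ⟨ε, h1, h2, fun γ hγ hne => ?_⟩
          rcases Finset.mem_insert.1 hγ with h | h
          · exact absurd (h.trans ha1) hne
          · exact h3 γ h hne
        · refine ⟨min ε (e a), lt_min h1 (he1 a ha1), (min_le_left _ _).trans h2, fun γ hγ hne g hg hn => ?_⟩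
          rcases Finset.mem_insert.1 hγ with h | h
          · subst h
            exact he2 γ hne g hg fun i j => (hn i j).trans_le (min_le_right _ _)
          · exact h3 γ h hne g hg fun i j => (hn i j).trans_le (min_le_left _ _)
    obtain ⟨ε, h1, h2, h3⟩ := this hfin.toFinset
    exact ⟨ε, h1, h2, fun γ hγ => h3 γ (hfin.mem_toFinset.2 hγ)⟩
  obtain ⟨ε, hε, hε2, hu⟩ := huni
  refine ⟨ε, hε, fun g γ hn => ?_⟩
  obtain ⟨γ', hγ'⟩ := hcov (g • I)
  set g1 : SL(2, ℝ) := (γ' : SL(2, ℝ)) * g with hg1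
  have hg1C : g1 ∈ C := by
    show g1 • I ∈ K
    rw [hg1, mul_smul]
    exact hγ'
  have hconj : g1⁻¹ * ((γ' * γ * γ'⁻¹ : Γ) : SL(2, ℝ)) * g1 = g⁻¹ * (γ : SL(2, ℝ)) * g := by
    rw [hg1]; push_cast; group
  by_contra hne
  have hne1 : γ' * γ * γ'⁻¹ ≠ 1 := by
    intro h
    apply hne
    have : γ = γ'⁻¹ * (γ' * γ * γ'⁻¹) * γ' := by group
    rw [this, h]; group
  refine hu (γ' * γ * γ'⁻¹) ?_ hne1 g1 hg1C (by rw [hconj]; exact hn)
  refine ⟨g1 • I, Or.inl hg1C, Or.inr ⟨(g1, g⁻¹ * (γ : SL(2, ℝ)) * g), ⟨hg1C, fun i j => ((hn i j).le).trans hε2⟩, ?_⟩⟩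
  show (g1 * (g⁻¹ * (γ : SL(2, ℝ)) * g)) • I = (γ' * γ * γ'⁻¹) • (g1 • I)
  have h7 : g1 * (g⁻¹ * (γ : SL(2, ℝ)) * g) = ((γ' * γ * γ'⁻¹ : Γ) : SL(2, ℝ)) * g1 := by
    rw [hg1]; push_cast; group
  rw [h7, mul_smul]
  rfl

end Pool.Agent.EN
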