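import Pool.Agent.helper25.EN.Spec

set_option autoImplicit false

namespace EN

open Finset Real

theorem RA (_acp : ACP_stmt) (tls : TLS_stmt) (lg : LOG_stmt) : RA_stmt := by
  classical
  intro m Q hQ S hS i
  have hadp : ∀ x y : Om m, (∀ u ∈ S i x, y u = x u) → S i y = S i x := by
    intro x y h
    cases i with
    | zero => rw [hS.1, hS.1]
    | succ i => exact (hS.2 i x).2 y (fun u hu => h u ((hS.2 i x).1 hu))
  have hadp' : ∀ x y : Om m, (∀ u ∈ S i x, y u = x u) → S (i + 1) y = S (i + 1) x :=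
    fun x y h => (hS.2 i x).2 y h
  have hpos : ∀ x, 0 < Q x → ∀ C, 0 < w Q C x := by
    intro x hx C
    unfold w
    exact lt_of_lt_of_le hx (single_le_sum (f := Q) (fun y _ => hQ.1 y) (by simp))
  have hapos : ∀ x, 0 < Q x → ∀ C v, 0 < a Q C v x := fun x hx C v => div_pos (hpos x hx _) (hpos x hx _)
  have hex : ∀ f : Fin m → Om m → ℝ, ∑ x, Q x * ∑ v ∈ S (i + 1) x \ S i x, f v x =
      ∑ v, ∑ x ∈ univ.filter (fun x => v ∈ S (i + 1) x \ S i x), Q x * f v x := by
    intro f
    simp only [mul_sum]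
    exact sum_comm' (by intro x v; simp)
  have h1 : KT Q (S (i + 1)) = KT Q (S i) + ∑ x, Q x * ∑ v ∈ S (i + 1) x \ S i x,
      (log 2 + log (a Q (S i x ∪ (S (i + 1) x ∩ pa v)) v x)) := by
    unfold KT
    rw [← sum_add_distrib]
    apply sum_congr rfl
    intro x _
    rw [← mul_add]
    rcases (hQ.1 x).eq_or_lt with h0 | h0
    · rw [← h0, zero_mul, zero_mul]
    · congr 1
      have hsub : S i x ⊆ S (i + 1) x := (hS.2 i x).1
      have h2 := tls m Q hQ x h0 (S i x) (S (i + 1) x) hsub
      have h3 := card_sdiff_add_card_eq_card hsub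
      have h4 : ((#(S (i + 1) x \ S i x) : ℕ) : ℝ) + #(S i x) = #(S (i + 1) x) := by exact_mod_cast h3
      rw [log_mul (by positivity) (hpos x h0 _).ne', log_mul (by positivity) (hpos x h0 _).ne', log_pow, log_pow,
        sum_add_distrib, sum_const, nsmul_eq_mul, h2, ← h4]
      ring
  rw [h1, hex]
  unfold G
  rw [hex]
  refine add_le_add le_rfl (sum_le_sum fun v _ => ?_)
  have hl := lg m Q hQ v (fun x => S i x ∪ (S (i + 1) x ∩ pa v)) (fun x => S i x ∪ pa v)
    (univ.filter (fun x => v ∈ S (i + 1) x \ S i x)) (by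
      intro x hx
      rw [mem_filter, mem_sdiff] at hx
      refine ⟨?_, ?_, ?_, ?_⟩
      · simp only [pa, mem_union, mem_filter, mem_univ, true_and, lt_irrefl, or_false]
        exact hx.2.2
      · exact union_subset_union_right inter_subset_right
      · intro y hy
        have hy' : ∀ u ∈ S i x, y u = x u := fun u hu => hy u (mem_union_left _ hu)
        simp only [hadp x y hy', hadp' x y hy']
      · intro y hy
        have hy' : ∀ u ∈ S i x, y u = x u := fun u hu => hy u (mem_union_left _ hu)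
        refine ⟨by simp only [hadp x y hy'], ?_⟩
        rw [mem_filter, mem_sdiff, hadp x y hy', hadp' x y hy']
        exact ⟨mem_univ _, hx.2⟩)
  obtain ⟨l1, -, l3⟩ := hl
  rw [← l1]
  have h5 : ∀ x ∈ univ.filter (fun x => v ∈ S (i + 1) x \ S i x), Q x * log (2 * a Q (S i x ∪ pa v) v x) =
      Q x * log 2 + Q x * log (a Q (S i x ∪ pa v) v x) := by
    intro x _
    rcases (hQ.1 x).eq_or_lt with h0 | h0
    · rw [← h0, zero_mul, zero_mul, zero_mul, zero_add]
    · rw [log_mul (by norm_num) (hapos x h0 _ _).ne', mul_add]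
  rw [sum_congr rfl h5, sum_add_distrib]
  simp only [mul_add, sum_add_distrib]
  linarith

end EN
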