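import Pool.Agent.helper80.EN.Spec2

/-!
# MP_43ab4e_al, row CNC: elements with locally nilpotent normal closure
-/

set_option autoImplicit false

namespace Pool.Agent.helper80.EN

open Subgroup

universe u

/-- The subgroup generated by the conjugates of `a` by the elements of a finite set. -/
private def cnj {G : Type u} [Group G] (a : G) (S : Finset G) : Subgroup G :=
  closure {x : G | ∃ g ∈ S, x = g⁻¹ * a * g}

private theorem cnj_mono {G : Type u} [Group G] (a : G) {S T : Finset G} (h : S ⊆ T) :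
    cnj a S ≤ cnj a T := by
  apply Subgroup.closure_mono
  rintro x ⟨g, hg, rfl⟩
  exact ⟨g, h hg, rfl⟩

private theorem exists_cnj {G : Type u} [Group G] (a : G) (x : G)
    (hx : x ∈ normalClosure ({a} : Set G)) : ∃ S : Finset G, x ∈ cnj a S := by
  classical
  have hx' : x ∈ closure (Group.conjugatesOfSet ({a} : Set G)) := hx
  refine closure_induction (p := fun x _ => ∃ S : Finset G, x ∈ cnj a S) ?_ ?_ ?_ ?_ hx'
  · intro y hy
    rw [Group.mem_conjugatesOfSet_iff] at hy
    obtain ⟨b, hb, hby⟩ := hy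
    rw [Set.mem_singleton_iff] at hb
    subst hb
    rw [isConj_iff] at hby
    obtain ⟨c, hc⟩ := hby
    refine ⟨{c⁻¹}, subset_closure ⟨c⁻¹, Finset.mem_singleton_self _, ?_⟩⟩
    rw [inv_inv]
    exact hc.symm
  · exact ⟨∅, one_mem _⟩
  · rintro y z _ _ ⟨S, hS⟩ ⟨T, hT⟩
    exact ⟨S ∪ T, mul_mem (cnj_mono a Finset.subset_union_left hS)
      (cnj_mono a Finset.subset_union_right hT)⟩
  · rintro y _ ⟨S, hS⟩
    exact ⟨S, inv_mem hS⟩

/-- CNC: if all finite sets of conjugates of `a` generate nilpotent subgroups then `a` is in the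
Hirsch-Plotkin radical. -/
theorem CNC (hHPR : HPR_stmt.{u}) (hTRF : TRF_stmt.{u}) : CNC_stmt.{u} := by
  classical
  intro G _ a h
  have hN : LocNilp (normalClosure ({a} : Set G)) := by
    intro K hK hKN
    obtain ⟨T, hT⟩ := hK
    have h1 : ∀ t ∈ T, ∃ S : Finset G, t ∈ cnj a S := by
      intro t ht
      apply exists_cnj
      apply hKN
      rw [← hT]
      exact subset_closure ht
    choose! S hS using h1
    have h2 : K ≤ cnj a (T.biUnion S) := by
      rw [← hT, closure_le]
      intro t ht
      exact cnj_mono a (Finset.subset_biUnion_of_mem S ht) (hS t ht)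
    have h3 : Group.IsNilpotent (cnj a (T.biUnion S)) := h (T.biUnion S)
    have h4 : LocNilp (cnj a (T.biUnion S)) := (hTRF G).2.2.2.2.1 _ h3
    have h5 : LocNilp K := (hTRF G).1 _ _ h2 h4
    exact (hTRF G).2.2.2.2.2.1 K ⟨T, hT⟩ h5
  exact (hHPR G).2.2.1 _ normalClosure_normal hN (subset_normalClosure (Set.mem_singleton a))

end Pool.Agent.helper80.EN
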