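import Pool.Agent.helper80.EN.Spec3

/-!
# Bounded left Engel elements (MP_202db4_al), row SDA: subnormality from the top down
-/

set_option autoImplicit false

namespace Pool.Agent.helper80.EN

open Subgroup

universe u

private theorem SDA_step : ∀ (s : ℕ) (G : Type u) [Group G] (H K : Subgroup G), H ≤ K →
    K ≤ normalizer (H : Set G) → SubnD s G K → SubnD (s + 1) G H := by
  intro s
  induction s with
  | zero =>
    intro G _ H K hHK hn h
    have h1 : K = ⊤ := h
    rw [h1, top_le_iff, normalizer_eq_top_iff] at hn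
    refine ⟨H, hn, le_rfl, ?_⟩
    show H.subgroupOf H = ⊤
    exact subgroupOf_self H
  | succ s ih =>
    intro G _ H K hHK hn h
    obtain ⟨N, hN, hKN, hs⟩ := h
    refine ⟨N, hN, hHK.trans hKN, ih N (H.subgroupOf N) (K.subgroupOf N) (comap_mono hHK) ?_ hs⟩
    exact (comap_mono hn).trans (le_normalizer_comap N.subtype)

private theorem SDA_one (G : Type u) [Group G] (H : Subgroup G) (h : H.IsSubnormal) :
    ∃ s, SubnD s G H := by
  induction h with
  | top => exact ⟨0, rfl⟩
  | step H K hle _ hN ih =>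
    obtain ⟨s, hs⟩ := ih
    rw [normal_subgroupOf_iff_le_normalizer hle] at hN
    exact ⟨s + 1, SDA_step s G H K hle hN hs⟩

private theorem SDA_two : ∀ (s : ℕ) (G : Type u) [Group G] (H : Subgroup G), SubnD s G H →
    H.IsSubnormal := by
  intro s
  induction s with
  | zero =>
    intro G _ H h
    have h1 : H = ⊤ := h
    rw [h1]
    exact IsSubnormal.top
  | succ s ih =>
    intro G _ H h
    obtain ⟨N, hN, hHN, hs⟩ := h
    exact IsSubnormal.trans hHN (ih N _ hs) hN.isSubnormal

private theorem SDA_three : ∀ (s : ℕ) (G G' : Type u) [Group G] [Group G'] (e : G ≃* G')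
    (H : Subgroup G), SubnD s G H → SubnD s G' (H.map e.toMonoidHom) := by
  intro s
  induction s with
  | zero =>
    intro G G' _ _ e H h
    have h1 : H = ⊤ := h
    show H.map e.toMonoidHom = ⊤
    rw [h1]
    exact map_top_of_surjective _ e.surjective
  | succ s ih =>
    intro G G' _ _ e H h
    obtain ⟨N, hN, hHN, hs⟩ := h
    refine ⟨N.map (e : G →* G'), hN.map _ e.surjective, map_mono hHN, ?_⟩
    have h2 := ih N (N.map (e : G →* G')) (e.subgroupMap N) (H.subgroupOf N) hs
    have h3 : (H.subgroupOf N).map (e.subgroupMap N).toMonoidHom =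
        (H.map (e : G →* G')).subgroupOf (N.map (e : G →* G')) := by
      ext x
      constructor
      · rintro ⟨y, hy, rfl⟩
        exact ⟨(y : G), hy, rfl⟩
      · rintro ⟨y, hy, hxy⟩
        exact ⟨⟨y, hHN hy⟩, hy, Subtype.ext hxy⟩
    rw [h3] at h2
    exact h2

theorem SDA : SDA_stmt.{u} := by
  refine ⟨SDA_one, SDA_two, SDA_three, ?_⟩
  intro s G _ N H g hN hHN h
  have h2 := SDA_three s N N (MulAut.conjNormal g) (H.subgroupOf N) h
  have h3 : (H.subgroupOf N).map (MulAut.conjNormal g : N ≃* N).toMonoidHom =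
      (H.map (MulAut.conj g).toMonoidHom).subgroupOf N := by
    ext x
    constructor
    · rintro ⟨y, hy, rfl⟩
      exact ⟨(y : G), hy, rfl⟩
    · rintro ⟨y, hy, hxy⟩
      exact ⟨⟨y, hHN hy⟩, hy, Subtype.ext hxy⟩
  rw [h3] at h2
  exact h2

end Pool.Agent.helper80.EN
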