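import Pool.Agent.helper80.EN.Spec2

/-!
# MP_43ab4e_al, row TEN: Engel conditions and axes
-/

set_option autoImplicit false

namespace Pool.Agent.helper80.EN

open Subgroup

universe u

/-- TEN: if `[x, _n y] = 1` and `y` has no fixed vertex then `x` preserves the axis of `y`. -/
theorem TEN (hTHU : THU_stmt.{u}) : TEN_stmt.{u} := by
  intro G V _ _ _ d hA x y n hn hell
  obtain ⟨t1, t2, t3, t4⟩ := hTHU G V d hA
  have hy : ∀ v : V, v ∈ Ax d y ↔ y • v ∈ Ax d y := by
    intro v
    have h1 := t3 y y v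
    have h2 : y⁻¹ * y * y = y := by group
    rw [h2] at h1
    exact h1
  have step : ∀ i : ℕ, (∀ v : V, v ∈ Ax d y ↔ icom x y (i + 1) • v ∈ Ax d y) →
      ∀ v : V, v ∈ Ax d y ↔ icom x y i • v ∈ Ax d y := by
    intro i hi
    have hc : (icom x y i)⁻¹ * y * icom x y i = y * (icom x y (i + 1))⁻¹ := by
      have h3 : icom x y (i + 1) = (icom x y i)⁻¹ * y⁻¹ * icom x y i * y := rfl
      rw [h3]
      group
    have hpres : ∀ v ∈ Ax d y, ((icom x y i)⁻¹ * y * icom x y i) • v ∈ Ax d y := by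
      intro v hv
      rw [hc, mul_smul]
      rw [← hy]
      rw [hi]
      rw [smul_inv_smul]
      exact hv
    have hnell : ¬ Ell V ((icom x y i)⁻¹ * y * icom x y i) := by
      intro h4
      exact hell ((t4 y (icom x y i)).mp h4)
    have hAx : Ax d y = Ax d ((icom x y i)⁻¹ * y * icom x y i) :=
      t2 _ hnell (Ax d y) (t1 y hell) hpres
    intro v
    have h5 := t3 y (icom x y i) v
    rw [← hAx] at h5
    exact h5
  have all : ∀ m : ℕ, (∀ v : V, v ∈ Ax d y ↔ icom x y m • v ∈ Ax d y) →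
      ∀ v : V, v ∈ Ax d y ↔ icom x y 0 • v ∈ Ax d y := by
    intro m
    induction m with
    | zero => exact fun h => h
    | succ m ih => exact fun h => ih (step m h)
  have h0 : ∀ v : V, v ∈ Ax d y ↔ x • v ∈ Ax d y := by
    apply all n
    intro v
    rw [hn, one_smul]
  intro v hv
  refine ⟨(h0 v).mp hv, ?_⟩
  rw [h0, smul_inv_smul]
  exact hv

end Pool.Agent.helper80.EN
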