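import Pool.Agent.helper80.EN.Spec2

/-!
# MP_43ab4e_al, row THY: hyperbolic left Engel elements
-/

set_option autoImplicit false

namespace Pool.Agent.helper80.EN

universe u

/-- THY: if a left Engel element has no fixed vertex, then all elements preserve its axis, and the
group is in `InL`. -/
theorem THY (hTEN : TEN_stmt.{u}) (hTHU : THU_stmt.{u}) (hTLI : TLI_stmt.{u}) : THY_stmt.{u} := by
  intro G V _ _ _ d hA hE a ha hell
  have hline : IsLine d (Ax d a) := (hTHU G V d hA).1 a hell
  refine hTLI G V d hA (Ax d a) hline ?_ hE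
  intro g x hx
  obtain ⟨n, hn⟩ := ha g
  exact (hTEN G V d hA g a n hn hell x hx).1

end Pool.Agent.helper80.EN
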